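import Pool.Agent.H84.S2.TgD

/-!
# MP_70ba79_ag, THEOREM S, part 2 (nodal curves): all jets are jets of forms
-/

set_option autoImplicit false

namespace Pool.Agent.H99.S2

open MvPolynomial SC
open Pool.Agent.H27.LV (ge deg poleOrder canDeg)
open Pool.Agent.H84.SM (cr dt dp)
open Pool.Agent.H92.SF (Q2)
open Pool.Agent.H3.SF (Itg Bb BB Hm eu grd hes Sfc Crd Cnn Crf Prm nv Vl VQ evc FE E)
open Pool.Agent.H84.SF
open Pool.Agent.H3.S2
open Pool.Agent.H84.S2

theorem pf_JSP (hAPX : Pool.Agent.H84.SF.T_APX) : T_JSP := by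
  classical
  intro k F σ _ _ _ _ _ X s hC hPt L0 hL0 hs0 e h hhe z
  obtain ⟨L0', L1', L2', ε, x1, y1, dX, dY, hL0', hL1', hL2', hs0', hε, hx1, hy1, hF⟩ := hPt
  have hA0 : aeval X L0 ≠ 0 := fun h0 => hs0 (hC.pt _ h0)
  have hA0' : aeval X L0' ≠ 0 := fun h0 => hs0' (hC.pt _ h0)
  -- the generators are in the maximal ideal
  have hεx : ε x1 = 0 := (hF.max x1).2 ⟨1, 0, by ring⟩
  have hεy : ε y1 = 0 := (hF.max y1).2 ⟨0, 1, by ring⟩
  have hxM : x1 ∈ Mx X s := by
    refine Ideal.subset_span ⟨1, L1', L0', ⟨hL1', hL0', hx1⟩, hs0', ?_⟩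
    have h1 := hε x1 1 L1' L0' ⟨hL1', hL0', hx1⟩
    rw [hεx, zero_mul] at h1
    exact h1.symm
  have hyM : y1 ∈ Mx X s := by
    refine Ideal.subset_span ⟨1, L2', L0', ⟨hL2', hL0', hy1⟩, hs0', ?_⟩
    have h1 := hε y1 1 L2' L0' ⟨hL2', hL0', hy1⟩
    rw [hεy, zero_mul] at h1
    exact h1.symm
  have hspan : Ideal.span {x1, y1} ≤ Mx X s := by
    rw [Ideal.span_le]
    rintro w hw
    rcases hw with rfl | hw
    · exact hxM
    · rw [Set.mem_singleton_iff] at hw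
      rw [hw]
      exact hyM
  -- the quotients
  let u : Os X s := ⟨aeval X L0 / aeval X L0', 1, L0, L0',
    ⟨hL0, hL0', div_mul_cancel₀ _ hA0'⟩, hs0'⟩
  let v : Os X s := ⟨aeval X L0' / aeval X L0, 1, L0', L0,
    ⟨hL0', hL0, div_mul_cancel₀ _ hA0⟩, hs0⟩
  have hu : (u : F) * aeval X L0' = aeval X L0 := div_mul_cancel₀ _ hA0'
  have hv : (v : F) * aeval X L0 = aeval X L0' := div_mul_cancel₀ _ hA0
  obtain ⟨P, r, hr, hP⟩ := hAPX k (Os X s) ε x1 y1 dX dY hF h (z * u ^ e)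
  have hPe : aeval ![x1, y1] P = ∑ m ∈ P.support,
      algebraMap k (Os X s) (coeff m P) * (x1 ^ m 0 * y1 ^ m 1) := by
    rw [aeval_def, eval₂_eq']
    refine Finset.sum_congr rfl fun m _ => ?_
    rw [Fin.prod_univ_two]
    rfl
  set lo : Finset (Fin 2 →₀ ℕ) := P.support.filter fun m => m 0 + m 1 < h with hlo
  set hi : Finset (Fin 2 →₀ ℕ) := P.support.filter fun m => ¬ m 0 + m 1 < h with hhi
  set Q : Os X s := ∑ m ∈ lo, algebraMap k (Os X s) (coeff m P) * (x1 ^ m 0 * y1 ^ m 1) with hQ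
  set Q' : Os X s := ∑ m ∈ hi, algebraMap k (Os X s) (coeff m P) * (x1 ^ m 0 * y1 ^ m 1) with hQ'
  have hsplit : aeval ![x1, y1] P = Q + Q' := by
    rw [hPe, hQ, hQ', hlo, hhi]
    exact (Finset.sum_filter_add_sum_filter_not _ _ _).symm
  have hQM : Q' ∈ Mx X s ^ h := by
    rw [hQ']
    refine Ideal.sum_mem _ fun m hm => Ideal.mul_mem_left _ _ ?_
    have h1 : h ≤ m 0 + m 1 := not_lt.1 (Finset.mem_filter.1 hm).2
    refine Ideal.pow_le_pow_right h1 ?_
    rw [pow_add]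
    exact Ideal.mul_mem_mul (Ideal.pow_mem_pow hxM _) (Ideal.pow_mem_pow hyM _)
  have hrM : r ∈ Mx X s ^ h := Ideal.pow_right_mono hspan h hr
  set f : MvPolynomial σ k := ∑ m ∈ lo,
    C (coeff m P) * (L1' ^ m 0 * L2' ^ m 1 * L0' ^ (e - (m 0 + m 1))) with hf
  have hfh : f.IsHomogeneous e := by
    rw [hf]
    refine IsHomogeneous.sum _ _ _ fun m hm => ?_
    have h1 : m 0 + m 1 < h := (Finset.mem_filter.1 hm).2
    have h2 := (isHomogeneous_C (σ := σ) (coeff m P)).mul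
      (((hL1'.pow (m 0)).mul (hL2'.pow (m 1))).mul (hL0'.pow (e - (m 0 + m 1))))
    have h3 : 0 + (1 * m 0 + 1 * m 1 + 1 * (e - (m 0 + m 1))) = e := by omega
    rw [h3] at h2
    exact h2
  have hfQ : (Q : F) * aeval X L0' ^ e = aeval X f := by
    rw [hQ, hf, map_sum, AddSubmonoidClass.coe_finsetSum, Finset.sum_mul]
    refine Finset.sum_congr rfl fun m hm => ?_
    have h1 : m 0 + m 1 < h := (Finset.mem_filter.1 hm).2
    have h3 : e = m 0 + m 1 + (e - (m 0 + m 1)) := by omega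
    have h4 : aeval X L0' ^ e =
        aeval X L0' ^ m 0 * aeval X L0' ^ m 1 * aeval X L0' ^ (e - (m 0 + m 1)) := by
      conv_lhs => rw [h3]
      rw [pow_add, pow_add]
    have h5 : ((algebraMap k (Os X s) (coeff m P) * (x1 ^ m 0 * y1 ^ m 1) : Os X s) : F) =
        algebraMap k F (coeff m P) * ((x1 : F) ^ m 0 * (y1 : F) ^ m 1) := by
      push_cast
      rfl
    rw [h5, h4, map_mul, map_mul, map_mul, map_pow, map_pow, map_pow, ← hx1, ← hy1, algHom_C,
      mul_pow, mul_pow]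
    ring
  refine ⟨-(Q' + r) * v ^ e, f, ?_, hfh, ?_⟩
  · exact Ideal.mul_mem_right _ _ (neg_mem (add_mem hQM hrM))
  · have h1 : z * u ^ e = Q + (Q' + r) := by
      rw [hP, hsplit]
      ring
    have h2 : (z : F) * (u : F) ^ e = (Q : F) + ((Q' : F) + (r : F)) := by
      have h3 := congrArg (fun w : Os X s => (w : F)) h1
      simpa using h3
    have h4 : (((z + -(Q' + r) * v ^ e : Os X s)) : F) =
        (z : F) + -((Q' : F) + (r : F)) * (v : F) ^ e := by
      push_cast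
      ring
    rw [h4, ← hfQ]
    have h5 : (z : F) * aeval X L0 ^ e = (z : F) * (u : F) ^ e * aeval X L0' ^ e := by
      rw [← hu, mul_pow]
      ring
    have h6 : (v : F) ^ e * aeval X L0 ^ e = aeval X L0' ^ e := by
      rw [← mul_pow, hv]
    calc ((z : F) + -((Q' : F) + (r : F)) * (v : F) ^ e) * aeval X L0 ^ e
        = (z : F) * aeval X L0 ^ e - ((Q' : F) + (r : F)) * ((v : F) ^ e * aeval X L0 ^ e) := by
          ring
      _ = (Q : F) * aeval X L0' ^ e := by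
          rw [h5, h6, h2]
          ring

end Pool.Agent.H99.S2
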